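import Mathlib

/-!
A perfect graph on 12 vertices that is uniquely 4-colourable and in which every colour
class induces a disconnected subgraph of the graph of critical pairs.
Vertex sets are coded by bit masks below 4096.
-/

set_option autoImplicit false

namespace Pool.Agent.Bacso

/-- adjacency code: bit `12 * i + j` is set when `i` and `j` are adjacent -/
def code : ℕ := 2728030581777282007332713886912320938936416

def adj (i j : ℕ) : Bool := code.testBit (12 * i + j)

/-- neighbourhood mask of the vertex `i` -/
def nb (i : ℕ) : ℕ := (code >>> (12 * i)) &&& 4095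

def G : SimpleGraph (Fin 12) where
  Adj i j := adj i.val j.val = true
  symm := ⟨by decide⟩
  loopless := ⟨by decide⟩

theorem adj_iff (i j : Fin 12) : G.Adj i j ↔ adj i.val j.val = true := Iff.rfl

/-- the set of a mask -/
def toF (m : ℕ) : Finset (Fin 12) := Finset.univ.filter (fun i => m.testBit i.val = true)

theorem mem_toF (m : ℕ) (i : Fin 12) : i ∈ toF m ↔ m.testBit i.val = true := by
  simp [toF]

theorem exists_mask (S : Finset (Fin 12)) : ∃ m : ℕ, m < 4096 ∧ toF m = S := by
  classical
  refine ⟨Nat.ofBits (fun i : Fin 12 => decide (i ∈ S)), Nat.ofBits_lt_two_pow _, ?_⟩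
  ext i
  rw [mem_toF, Nat.testBit_ofBits_lt _ _ i.isLt]
  simp

theorem nb_testBit (i j : ℕ) (hj : j < 12) : (nb i).testBit j = adj i j := by
  unfold nb adj
  rw [Nat.testBit_and, Nat.testBit_shiftRight]
  have : (4095 : ℕ).testBit j = true := by
    interval_cases j <;> decide
  rw [this, Bool.and_true]

/-- table of the clique numbers of the masks, three bits each -/
def tabCode : ℕ := 0x92492392492392492392492392491b92491b91b91b6db6da92491b92491b92491b92491b92491b92491b91b91b6db6d29249239249239249239249239246db9246db6db6da6db6da92491b92491b92491b92491b9246db9246db6db6d26db6d292492392492392392392392392491b92491b91b91b6db6da92491b92491b91b91b6db6da92491b92491b91b91b6db6d29239239239239239239239236db6da6db6da6da6da6da6da6db6da6db6da6db6da6db6da6db6d26db6d26d26d249249192492392492392492392492392491b92491b6db6da6db6da92491b92491b9246db9246db92491b92491b6db6d26db6d29249239249239249239249239246db9246db6db6da6db6da9246db9246db9246db9246db9246db9246db6db4926db49292492392492392392392392392491b92491b6db6da6db6da92491b92491b6db6da6db6da92491b92491b6db6d26db6d2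9239239239239239239239236db6da6db6da6da6da6da6da6db6da6db6da6db6da6db6da6db6d26db6d249249149249192492392492392492392492392491b9246db91b91b6db6da92491b92491b92491b92491b92491b9246db91b91b6db6d29249239249239249239249239246db9246db6db6da6db6da92491b92491b92491b92491b9246db9246db6db6d26db6d29249239248e39239238e38e392491b9246db91b91b6db6da92491b9246db91b91b6db6da92491b9246db91b91b6db6d28e38e38e38e38e38e38e38e36db6da6db69a6da6da69a69a6db6da6db6da6db6da6db6da6db6d26db4926d26d24924919248e39248e39248e39248e39246db9246db6db6da6db69a9246db9246db9246db9246db9246db9246db6db6d26db4929248e39248e39248e39248e39246db9246db6db69a6db69a9246db9246db9246db9246db9246db9246db6db4926db4929248e39248e38e38e38e38e39246db9246db6db6da6db69a9246db9246db6db6da6db69a9246db9246db6db6d26db4928e38e38e38e38e38e38e38e36db69a6db69a69a69a69a69a6db69a6db69a6db69a6db69a6db4926db49249249149245192491b92491b91b91b91b91b92491b92491b91b91b6db6d292491b92491b91b91b91b91b92491b92491b91b91b6db6d291b91b91b91b91b91b91b91b6db6d26db6d26d26d26d26d291b91b91b91b91b91b91b91b6db6d26db6d26d26d26d26d292491b92491b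91b91b91b91b92491b92491b91b91b6db6d292491b92491b91b91b6db6d292491b92491b91b91b6db6d291b91b91b91b91b91b91b91b6db6d26db6d26d26d26d26d26db6d26db6d26db6d26db6d26db6d26db6d26d26d249248992491b92491b91b91b91b91b92491b92491b6db6d26db6d292491b92491b6db6d26db6d292491b92491b6db6d26db6d291b91b91b91b91b91b91b91b6db6d26db6d26d26d26d26d26db6d26db6d26db6d26db6d26db6d26db6d249248949248992491b92491b91b91b91b91b92491b92491b6db6d26db6d292491b92491b6db6d26db6d292491b92491b6db6d26db6d291b91b91b91b91b91b91b91b6db6d26db6d26d26d26d26d26db6d26db6d26db6d26db6d26db6d26db6d249248949248991b91b91b91b91b91b91b91b91b91b6db6d291b91b6d26d291b91b91b91b91b91b91b91b91b91b6db6d291b91b6d26d291b91b91b91b91b91b91b91b6db6d26db6d26d26d26d26d291b91b91b91b91b91b91b91b6db6d26db6d26d26d26d26d291b91b6db6da91b91b6da6da91b91b6db6d291b91b6d26d291b91b6db6d291b91b6d26d291b91b6db6d291b91b6d26d26da6da6da6da6da6da6da6da6d26d24924916d26d24914916d26d26d26d26d26d26d26d26d26d24924896d26d24894896db6da6db6da6db6da6db6da6db6d26db6d26d26d24924916db6d26db6d26db6d26db6d26db6d26db6d26d26d24924896db6da6db6da6db6da6db6da6db6d26db6d24924914924916db6d26db6d26db6d26db6d26db6d26db6d24924894924896db6da6db6da6da6da6da6da6db6d26db6d26d26d24924916db6d26db6d26d26d24924916db6d26db6d26d26d24924896da6da6da6da6da6da6da6da492491492491491491491491492491492491492491492491492489492489489489249248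

def tab (m : ℕ) : ℕ := (tabCode >>> (3 * m)) &&& 7

/-- recurrence of the table -/
def rec1 (m : ℕ) : Bool :=
  (m == 0 && tab m == 0) ||
    (Nat.blt m.log2 12 && m.testBit m.log2 &&
      ((Nat.blt (m ^^^ 2 ^ m.log2) m && tab m == tab (m ^^^ 2 ^ m.log2)) ||
        tab m == tab (m &&& nb m.log2) + 1))

/-- check `f` on all numbers `p * 2 ^ d + r`, `r < 2 ^ d` -/
def allB : ℕ → ℕ → (ℕ → Bool) → Bool
  | 0, p, f => f p
  | d + 1, p, f => allB d (2 * p) f && allB d (2 * p + 1) f

theorem allB_spec (d p : ℕ) (f : ℕ → Bool) (h : allB d p f = true) :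
    ∀ r < 2 ^ d, f (p * 2 ^ d + r) = true := by
  induction d generalizing p with
  | zero => intro r hr; simp at hr; subst hr; simpa [allB] using h
  | succ d ih =>
    simp only [allB, Bool.and_eq_true] at h
    intro r hr
    by_cases hr' : r < 2 ^ d
    · have := ih (2 * p) h.1 r hr'
      have e : p * 2 ^ (d + 1) + r = 2 * p * 2 ^ d + r := by ring
      rw [e]; exact this
    · have := ih (2 * p + 1) h.2 (r - 2 ^ d) (by rw [pow_succ] at hr; omega)
      have e : p * 2 ^ (d + 1) + r = (2 * p + 1) * 2 ^ d + (r - 2 ^ d) := by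
        have : r = 2 ^ d + (r - 2 ^ d) := by omega
        rw [pow_succ]
        calc p * (2 ^ d * 2) + r = p * (2 ^ d * 2) + (2 ^ d + (r - 2 ^ d)) := by rw [← this]
          _ = _ := by ring
      rw [e]; exact this

theorem all_of (f : ℕ → Bool) (h : allB 12 0 f = true) (m : ℕ) (hm : m < 4096) :
    f m = true := by
  have := allB_spec 12 0 f h m hm
  simpa using this

theorem all_rec1 : allB 12 0 rec1 = true := by decide +kernel

theorem adj_self (i : ℕ) (hi : i < 12) : adj i i = false := by
  interval_cases i <;> decide

theorem tab_spec (m : ℕ) (hm : m < 4096) :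
    ∃ K : Finset (Fin 12), K ⊆ toF m ∧ G.IsClique (K : Set (Fin 12)) ∧ K.card = tab m := by
  classical
  induction m using Nat.strong_induction_on with
  | _ m ih =>
    have h := all_of _ all_rec1 m hm
    unfold rec1 at h
    rw [Bool.or_eq_true] at h
    rcases h with h | h
    · rw [Bool.and_eq_true, beq_iff_eq, beq_iff_eq] at h
      exact ⟨∅, by simp, by simp, by simp [h.2]⟩
    · rw [Bool.and_eq_true, Bool.and_eq_true, Nat.blt_eq, Bool.or_eq_true, Bool.and_eq_true,
        Nat.blt_eq, beq_iff_eq, beq_iff_eq] at h
      generalize m.log2 = v at h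
      obtain ⟨⟨hv, hb⟩, h⟩ := h
      rcases h with ⟨hlt, h⟩ | h
      · obtain ⟨K, h1, h2, h3⟩ := ih _ hlt (by omega)
        refine ⟨K, fun x hx => ?_, h2, by rw [h3, h]⟩
        have := h1 hx
        rw [mem_toF, Nat.testBit_xor, Nat.testBit_two_pow] at this
        rw [mem_toF]
        by_cases hxv : v = x.val
        · rw [← hxv]; exact hb
        · simpa [hxv] using this
      · have hlt : m &&& nb v < m := by
          refine lt_of_le_of_ne Nat.and_le_left fun he => ?_
          have h5 : (m &&& nb v).testBit v = true := by rw [he]; exact hb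
          rw [Nat.testBit_and, nb_testBit _ _ hv, adj_self _ hv] at h5
          simp at h5
        obtain ⟨K, h1, h2, h3⟩ := ih _ hlt (by omega)
        have hK : ∀ x ∈ K, m.testBit x.val = true ∧ adj v x.val = true := by
          intro x hx
          have := h1 hx
          rw [mem_toF, Nat.testBit_and, nb_testBit _ _ x.isLt, Bool.and_eq_true] at this
          exact this
        have hnot : (⟨v, hv⟩ : Fin 12) ∉ K := fun hx => by
          have := (hK _ hx).2
          rw [adj_self _ hv] at this
          simp at this
        refine ⟨insert ⟨v, hv⟩ K, ?_, ?_, ?_⟩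
        · intro x hx
          rcases Finset.mem_insert.1 hx with rfl | hx
          · rw [mem_toF]; exact hb
          · rw [mem_toF]; exact (hK x hx).1
        · rw [Finset.coe_insert, SimpleGraph.isClique_insert]
          exact ⟨h2, fun x hx _ => (hK x hx).2⟩
        · rw [Finset.card_insert_of_notMem hnot, h3, h]

/-- the maximal stable sets -/
def stabs : List ℕ :=
  [7, 56, 25, 13, 160, 76, 328, 385, 88, 448, 1289, 529, 592, 517, 580, 3080, 1537, 2050, 3584]

/-- the mask `I` is stable -/
def isStab (I : ℕ) : Bool :=
  (List.range 12).all fun i => (List.range 12).all fun j =>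
    !(I.testBit i && I.testBit j && adj i j)

theorem isStab_iff (I : ℕ) :
    isStab I = true ↔ ∀ x y : Fin 12, x ∈ toF I → y ∈ toF I → ¬ G.Adj x y := by
  unfold isStab
  rw [List.all_eq_true]
  constructor
  · intro h x y hx hy hxy
    have h1 := h x.val (List.mem_range.2 x.isLt)
    rw [List.all_eq_true] at h1
    have h2 := h1 y.val (List.mem_range.2 y.isLt)
    rw [mem_toF] at hx hy
    rw [adj_iff] at hxy
    rw [hx, hy, hxy] at h2
    simp at h2
  · intro h i hi
    rw [List.all_eq_true]
    intro j hj
    rw [List.mem_range] at hi hj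
    have := h ⟨i, hi⟩ ⟨j, hj⟩
    rw [mem_toF, mem_toF, adj_iff] at this
    by_contra hc
    simp only [Bool.not_eq_true, Bool.not_eq_false', Bool.and_eq_true] at hc
    exact this hc.1.1 hc.1.2 hc.2

theorem stabs_stab : (stabs.all isStab) = true := by decide +kernel

/-- one step of the colouring: some stable set of the list lowers the clique number -/
def step (m : ℕ) : Bool :=
  (m == 0 && tab m == 0) || stabs.any fun I =>
    tab (m &&& (4095 ^^^ I)) + 1 == tab m

theorem all_step : allB 12 0 step = true := by decide +kernel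

theorem colour (m : ℕ) (hm : m < 4096) :
    ∃ c : Fin 12 → ℕ, (∀ x ∈ toF m, c x < tab m) ∧
      ∀ x ∈ toF m, ∀ y ∈ toF m, G.Adj x y → c x ≠ c y := by
  classical
  induction m using Nat.strong_induction_on with
  | _ m ih =>
    have h := all_of _ all_step m hm
    unfold step at h
    rw [Bool.or_eq_true] at h
    rcases h with h | h
    · rw [Bool.and_eq_true, beq_iff_eq, beq_iff_eq] at h
      obtain ⟨h, _⟩ := h
      subst h
      refine ⟨fun _ => 0, fun x hx => ?_, fun x hx => ?_⟩ <;>
      · rw [mem_toF] at hx
        simp at hx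
    · rw [List.any_eq_true] at h
      obtain ⟨I, hI, h⟩ := h
      rw [beq_iff_eq] at h
      have hst : isStab I = true := by
        have := stabs_stab
        rw [List.all_eq_true] at this
        exact this I hI
      rw [isStab_iff] at hst
      have hlt : m &&& (4095 ^^^ I) < m := by
        refine lt_of_le_of_ne Nat.and_le_left fun he => ?_
        rw [he] at h
        omega
      obtain ⟨c, h1, h2⟩ := ih _ hlt (by omega)
      have key : ∀ x : Fin 12, x ∈ toF m → x ∉ toF I → x ∈ toF (m &&& (4095 ^^^ I)) := by
        intro x hx hxI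
        rw [mem_toF] at hx hxI ⊢
        rw [Nat.testBit_and, Nat.testBit_xor, hx]
        have h3 : (4095 : ℕ).testBit x.val = true := by
          have := x.isLt
          generalize x.val = j at this
          interval_cases j <;> decide
        rw [h3]
        simpa using hxI
      refine ⟨fun x => if x ∈ toF I then tab (m &&& (4095 ^^^ I)) else c x, ?_, ?_⟩
      · intro x hx
        by_cases hxI : x ∈ toF I
        · simp only [hxI, if_true]; omega
        · have := h1 x (key x hx hxI)
          simp only [hxI, if_false]; omega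
      · intro x hx y hy hxy
        by_cases hxI : x ∈ toF I
        · by_cases hyI : y ∈ toF I
          · exact absurd hxy (hst x y hxI hyI)
          · have := h1 y (key y hy hyI)
            simp only [hxI, hyI, if_true, if_false]; omega
        · by_cases hyI : y ∈ toF I
          · have := h1 x (key x hx hxI)
            simp only [hxI, hyI, if_true, if_false]; omega
          · simp only [hxI, hyI, if_false]
            exact h2 x (key x hx hxI) y (key y hy hyI) hxy

theorem perfect (S : Finset (Fin 12)) : ∃ K : Finset (Fin 12), K ⊆ S ∧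
    G.IsClique (K : Set (Fin 12)) ∧ (G.induce (S : Set (Fin 12))).Colorable K.card := by
  obtain ⟨m, hm, rfl⟩ := exists_mask S
  obtain ⟨K, h1, h2, h3⟩ := tab_spec m hm
  obtain ⟨c, h4, h5⟩ := colour m hm
  refine ⟨K, h1, h2, ?_⟩
  rw [h3]
  refine ⟨SimpleGraph.Coloring.mk (fun x => (⟨c x.1, h4 x.1 (by simpa using x.2)⟩ : Fin (tab m)))
    ?_⟩
  intro x y hxy he
  have : c x.1 = c y.1 := by simpa using he
  exact h5 x.1 (by simpa using x.2) y.1 (by simpa using y.2) (by simpa using hxy) this

/-- the 4-cliques of the graph -/
def cliques : List ℕ :=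
  [650, 802, 1122, 1170, 1172, 2145, 2196, 2324, 2340]

/-- the mask `K` is a clique -/
def isCl (K : ℕ) : Bool :=
  (List.range 12).all fun i => (List.range 12).all fun j =>
    i == j || !(K.testBit i && K.testBit j) || adj i j

theorem isCl_spec (K : ℕ) (h : isCl K = true) : G.IsClique (toF K : Set (Fin 12)) := by
  intro x hx y hy hxy
  unfold isCl at h
  rw [List.all_eq_true] at h
  have h1 := h x.val (List.mem_range.2 x.isLt)
  rw [List.all_eq_true] at h1
  have h2 := h1 y.val (List.mem_range.2 y.isLt)
  rw [Finset.mem_coe, mem_toF] at hx hy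
  rw [hx, hy] at h2
  rw [adj_iff]
  have : ¬ x.val = y.val := fun h => hxy (Fin.ext h)
  simpa [this] using h2

theorem cliques_cl : (cliques.all isCl) = true := by decide +kernel

theorem cliques_card : ∀ K ∈ cliques, (toF K).card = 4 := by decide +kernel

/-- a stable set that meets all the cliques is one of the four classes -/
def classChk (m : ℕ) : Bool :=
  !(isStab m && cliques.all fun K => !((K &&& m) == 0)) || m == 7 || m == 56 || m == 448 ||
    m == 3584

theorem all_class : allB 12 0 classChk = true := by decide +kernel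

theorem c0_valid : ∀ x y : Fin 12, adj x.val y.val = true → x.val / 3 ≠ y.val / 3 := by
  decide +kernel

/-- the colouring -/
def c0 : G.Coloring (Fin 4) :=
  SimpleGraph.Coloring.mk (fun x => (⟨x.val / 3, by omega⟩ : Fin 4)) (by
    intro x y hxy he
    exact c0_valid x y hxy (by simpa using he))

theorem c0_val (x : Fin 12) : (c0 x).val = x.val / 3 := rfl

theorem class_mask (m : ℕ) (h : m = 7 ∨ m = 56 ∨ m = 448 ∨ m = 3584) :
    ∃ a : ℕ, ∀ x : Fin 12, x ∈ toF m ↔ x.val / 3 = a := by
  rcases h with rfl | rfl | rfl | rfl
  · exact ⟨0, by decide +kernel⟩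
  · exact ⟨1, by decide +kernel⟩
  · exact ⟨2, by decide +kernel⟩
  · exact ⟨3, by decide +kernel⟩

theorem unique (c : G.Coloring (Fin 4)) (x y : Fin 12) :
    c x = c y ↔ x.val / 3 = y.val / 3 := by
  classical
  have key : ∀ b : Fin 4, ∃ a : ℕ, ∀ z : Fin 12, c z = b ↔ z.val / 3 = a := by
    intro b
    obtain ⟨m, hm, hmS⟩ := exists_mask (Finset.univ.filter (fun z => c z = b))
    have hmem : ∀ z : Fin 12, z ∈ toF m ↔ c z = b := by
      intro z; rw [hmS]; simp
    have h := all_of _ all_class m hm
    have h1 : isStab m = true := by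
      rw [isStab_iff]
      intro u v hu hv huv
      rw [hmem] at hu hv
      exact c.valid huv (hu.trans hv.symm)
    have h2 : (cliques.all fun K => !((K &&& m) == 0)) = true := by
      rw [List.all_eq_true]
      intro K hK
      have hcl : G.IsClique (toF K : Set (Fin 12)) := by
        apply isCl_spec
        have := cliques_cl
        rw [List.all_eq_true] at this
        exact this K hK
      have hcard := cliques_card K hK
      have hinj : Set.InjOn c (toF K : Set (Fin 12)) := by
        intro u hu v hv huv
        by_contra hne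
        exact c.valid (hcl hu hv hne) huv
      have himg : ((toF K).image c) = Finset.univ := by
        apply Finset.eq_univ_of_card
        rw [Finset.card_image_of_injOn hinj, hcard]
        simp
      have hb : b ∈ (toF K).image c := by rw [himg]; exact Finset.mem_univ _
      obtain ⟨z, hz, hzb⟩ := Finset.mem_image.1 hb
      have hz2 := (hmem z).2 hzb
      rw [mem_toF] at hz hz2
      have hne : (K &&& m) ≠ 0 := by
        intro h0
        have : (K &&& m).testBit z.val = true := by
          rw [Nat.testBit_and, hz, hz2]; rfl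
        rw [h0] at this
        simp at this
      simpa using hne
    unfold classChk at h
    rw [h1, h2] at h
    have h3 : m = 7 ∨ m = 56 ∨ m = 448 ∨ m = 3584 := by
      simpa [or_assoc] using h
    obtain ⟨a, ha⟩ := class_mask m h3
    exact ⟨a, fun z => by rw [← hmem, ha]⟩
  constructor
  · intro h
    obtain ⟨a, ha⟩ := key (c x)
    have h1 := (ha x).1 rfl
    have h2 := (ha y).1 h.symm
    rw [h1, h2]
  · intro h
    obtain ⟨a, ha⟩ := key (c x)
    have h1 := (ha x).1 rfl
    exact ((ha y).2 (h ▸ h1)).symm

theorem chrom : G.chromaticNumber = (4 : ℕ) := by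
  apply le_antisymm
  · exact SimpleGraph.Colorable.chromaticNumber_le ⟨c0⟩
  · have hcl : G.IsClique (toF 650 : Set (Fin 12)) := by
      apply isCl_spec
      decide +kernel
    have hcard : (toF 650).card = 4 := by decide +kernel
    have := hcl.card_le_chromaticNumber
    rw [hcard] at this
    exact this

theorem clique_le (K : Finset (Fin 12)) (h : G.IsClique (K : Set (Fin 12))) : K.card ≤ 4 := by
  have := h.card_le_of_coloring c0
  simpa using this

/-- no triangle in the common neighbourhood of `x` and `y` -/
def noTri (x y : ℕ) : Bool :=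
  (List.range 12).all fun p => !(adj x p && adj y p) ||
    (List.range 12).all fun q => !(adj x q && adj y q && adj p q) ||
      (List.range 12).all fun r => !(adj x r && adj y r && adj p r && adj q r)

theorem noTri_spec (x y : Fin 12) (h : noTri x.val y.val = true) (p q r : Fin 12)
    (h1 : G.Adj x p) (h2 : G.Adj y p) (h3 : G.Adj x q) (h4 : G.Adj y q) (h5 : G.Adj x r)
    (h6 : G.Adj y r) (h7 : G.Adj p q) (h8 : G.Adj p r) (h9 : G.Adj q r) : False := by
  unfold noTri at h
  rw [List.all_eq_true] at h
  have a1 := h p.val (List.mem_range.2 p.isLt)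
  rw [adj_iff] at h1 h2 h3 h4 h5 h6 h7 h8 h9
  rw [h1, h2] at a1
  simp only [Bool.and_self, Bool.not_true, Bool.false_or] at a1
  rw [List.all_eq_true] at a1
  have a2 := a1 q.val (List.mem_range.2 q.isLt)
  rw [h3, h4, h7] at a2
  simp only [Bool.and_self, Bool.not_true, Bool.false_or] at a2
  rw [List.all_eq_true] at a2
  have a3 := a2 r.val (List.mem_range.2 r.isLt)
  rw [h5, h6, h8, h9] at a3
  simp at a3

theorem noCrit (x y : Fin 12) (h : noTri x.val y.val = true) :
    ¬ ∃ K : Finset (Fin 12),
      (G ⊔ SimpleGraph.fromEdgeSet {s(x, y)}).IsClique (K : Set (Fin 12)) ∧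
      ∀ T : Finset (Fin 12), G.IsClique (T : Set (Fin 12)) → T.card < K.card := by
  classical
  rintro ⟨K, hK, hT⟩
  have h5 : 4 < K.card := by
    have hcl : G.IsClique (toF 650 : Set (Fin 12)) := by
      apply isCl_spec
      decide +kernel
    have hcard : (toF 650).card = 4 := by decide +kernel
    have := hT _ hcl
    rw [hcard] at this
    exact this
  have hadj : ∀ u ∈ K, ∀ v ∈ K, u ≠ v → G.Adj u v ∨ s(u, v) = s(x, y) := by
    intro u hu v hv huv
    have := hK hu hv huv
    rw [SimpleGraph.sup_adj, SimpleGraph.fromEdgeSet_adj] at this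
    rcases this with h | h
    · exact Or.inl h
    · exact Or.inr h.1
  have hx : x ∈ K := by
    by_contra hx
    have : G.IsClique (K : Set (Fin 12)) := by
      intro u hu v hv huv
      rcases hadj u hu v hv huv with h | h
      · exact h
      · rcases Sym2.eq_iff.1 h with h | h
        · exact absurd (h.1 ▸ hu) hx
        · exact absurd (h.2 ▸ hv) hx
    have := clique_le K this
    omega
  have hy : y ∈ K := by
    by_contra hy
    have : G.IsClique (K : Set (Fin 12)) := by
      intro u hu v hv huv
      rcases hadj u hu v hv huv with h | h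
      · exact h
      · rcases Sym2.eq_iff.1 h with h | h
        · exact absurd (h.2 ▸ hv) hy
        · exact absurd (h.1 ▸ hu) hy
    have := clique_le K this
    omega
  have hc : 2 < ((K.erase x).erase y).card := by
    have h1 := Finset.card_erase_of_mem hx
    have h2 := Finset.pred_card_le_card_erase (s := K.erase x) (a := y)
    omega
  rw [Finset.two_lt_card_iff] at hc
  obtain ⟨p, q, r, hp, hq, hr, hpq, hpr, hqr⟩ := hc
  have mem : ∀ z, z ∈ (K.erase x).erase y → z ≠ y ∧ z ≠ x ∧ z ∈ K := by
    intro z hz
    rw [Finset.mem_erase, Finset.mem_erase] at hz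
    exact hz
  have outer : ∀ z, z ∈ (K.erase x).erase y → G.Adj x z ∧ G.Adj y z := by
    intro z hz
    obtain ⟨z1, z2, z3⟩ := mem z hz
    constructor
    · rcases hadj x hx z z3 (Ne.symm z2) with h | h
      · exact h
      · rcases Sym2.eq_iff.1 h with h | h
        · exact absurd h.2 z1
        · exact absurd h.2 z2
    · rcases hadj y hy z z3 (Ne.symm z1) with h | h
      · exact h
      · rcases Sym2.eq_iff.1 h with h | h
        · exact absurd h.2 z1
        · exact absurd h.2 z2
  have inner : ∀ z w, z ∈ (K.erase x).erase y → w ∈ (K.erase x).erase y → z ≠ w →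
      G.Adj z w := by
    intro z w hz hw hzw
    obtain ⟨z1, z2, z3⟩ := mem z hz
    obtain ⟨w1, w2, w3⟩ := mem w hw
    rcases hadj z z3 w w3 hzw with h | h
    · exact h
    · rcases Sym2.eq_iff.1 h with h | h
      · exact absurd h.1 z2
      · exact absurd h.1 z1
  exact noTri_spec x y h p q r (outer p hp).1 (outer p hp).2 (outer q hq).1 (outer q hq).2
    (outer r hr).1 (outer r hr).2 (inner p q hp hq hpq) (inner p r hp hr hpr)
    (inner q r hq hr hqr)

theorem noTri_all : ∀ x y : Fin 12, x.val / 3 = y.val / 3 → x.val % 3 = 0 → x ≠ y →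
    noTri x.val y.val = true ∧ noTri y.val x.val = true := by decide +kernel

/-- the graph of critical pairs, written as in the frozen statement -/
theorem disconnected (i : Fin 4) :
    ¬ ((SimpleGraph.fromRel (fun x y : Fin 12 => ∃ K : Finset (Fin 12),
          (G ⊔ SimpleGraph.fromEdgeSet {s(x, y)}).IsClique (K : Set (Fin 12)) ∧
          ∀ T : Finset (Fin 12), G.IsClique (T : Set (Fin 12)) → T.card < K.card)).induce
            {v : Fin 12 | c0 v = i}).Connected := by
  intro hcon
  have hi := i.isLt
  have hx : c0 (⟨3 * i.val, by omega⟩ : Fin 12) = i := by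
    apply Fin.ext
    rw [c0_val]
    simp
  have hy : c0 (⟨3 * i.val + 1, by omega⟩ : Fin 12) = i := by
    apply Fin.ext
    rw [c0_val]
    show (3 * i.val + 1) / 3 = i.val
    omega
  obtain ⟨w⟩ := hcon.preconnected ⟨_, hx⟩ ⟨_, hy⟩
  obtain ⟨z, h, _, _⟩ := w.exists_eq_cons_of_ne (by
    intro h
    have h2 := congrArg (fun t => (t.1 : Fin 12).val) h
    have h3 : 3 * i.val = 3 * i.val + 1 := h2
    omega)
  rw [SimpleGraph.induce_adj, SimpleGraph.fromRel_adj] at h
  obtain ⟨hne, h⟩ := h
  have hz : (z.1 : Fin 12).val / 3 = i.val := by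
    rw [← c0_val]
    exact congrArg Fin.val z.2
  have hn := noTri_all ⟨3 * i.val, by omega⟩ z.1 (by
    show (3 * i.val) / 3 = _
    omega) (by
    show (3 * i.val) % 3 = 0
    omega) hne
  rcases h with h | h
  · exact noCrit _ _ hn.1 h
  · exact noCrit _ _ hn.2 h

end Pool.Agent.Bacso
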